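import Pool.Agent.Y395.RS.Stm

set_option autoImplicit false
set_option linter.unusedSectionVars false

/-! Large pieces do not exist (project RS of helper395). -/

namespace Pool.Agent.Y375.RS.BIG

open Finset Pool.Agent.Y395.RS Pool.Agent.H234RC

section

variable {V : Type} [Fintype V] [DecidableEq V]

open Classical in
/-- the walks in `A` with `m` steps -/
noncomputable def Wk (G : SimpleGraph V) (A : Finset V) (m : ℕ) : Finset (Fin (m + 1) → V) :=
  univ.filter (fun w : Fin (m + 1) → V => (∀ i, w i ∈ A) ∧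
    ∀ i : Fin m, G.Adj (w i.castSucc) (w i.succ))

/-- certificates: two break points and two walks -/
abbrev CT (V : Type) (m : ℕ) := (V × V) × ((Fin (m + 1) → V) × (Fin (m + 1) → V))

/-- the set covered by the walk -/
def kc {m : ℕ} (c : CT V m) : Finset V := univ.image c.2.1

open Classical in
/-- the map of the certificate -/
noncomputable def psi {m : ℕ} (c : CT V m) (x : V) : V :=
  if h : ∃ i, c.2.1 i = x then c.2.2 h.choose else x

/-- the break points -/
def bc {m : ℕ} (c : CT V m) : Finset V := {c.1.1, c.1.2}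

/-- the event of a certificate -/
def Pc {m : ℕ} (Q : Finset V) (k : ℕ) (c : CT V m) (F : Finset (Sym2 V)) : Prop :=
  ((kc c).card = k ∧ kc c ⊆ Q ∧ (∀ x ∈ kc c, x ∉ bc c) ∧ Set.InjOn (psi c) (kc c) ∧
    (∀ x ∈ kc c, psi c x ≠ x)) ∧ Ev Q (kc c) (bc c) (psi c) F

theorem psi_off {m : ℕ} (c : CT V m) (x : V) (hx : x ∉ kc c) : psi c x = x := by
  unfold psi
  rw [dif_neg]
  rintro ⟨i, hi⟩
  exact hx (mem_image.2 ⟨i, mem_univ _, hi⟩)

theorem cert_le (hC : CERT) (G : SimpleGraph V) (Q : Finset V) (d g k m : ℕ)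
    (hd : ∀ x ∈ Q, d ≤ (nb G Q x).card) (hg : 18 * g + 3 ≤ d) (c : CT V m) :
    cnt (ed G) (Pc Q k c) ≤ (3 / 4) ^ (g * k) * 2 ^ (ed G).card := by
  by_cases hc : (kc c).card = k ∧ kc c ⊆ Q ∧ (∀ x ∈ kc c, x ∉ bc c) ∧
      Set.InjOn (psi c) (kc c) ∧ (∀ x ∈ kc c, psi c x ≠ x)
  · obtain ⟨h1, h2, h3, h4, h5⟩ := hc
    refine (cnt_mono (Q := Ev Q (kc c) (bc c) (psi c)) fun F _ h => h.2).trans ?_
    refine hC V G Q (kc c) (bc c) (psi c) d (g * k) h2 h3 h4 h5 (psi_off c) ?_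
      (fun x hx => hd x (h2 hx)) ?_
    · unfold bc
      exact card_le_two
    · rw [h1]
      have : 18 * g ≤ d - 3 := by omega
      calc 18 * (g * k) = k * (18 * g) := by ring
        _ ≤ k * (d - 3) := Nat.mul_le_mul_left _ this
  · refine (cnt_mono (Q := fun _ => False) fun F _ h => hc h.1).trans ?_
    rw [cnt_false]
    positivity

/-- the certificate of a piece -/
theorem exists_cert (hW : WALK) (G : SimpleGraph V) (Q Lo K : Finset V) (φ : NAut V)
    (F : Finset (Sym2 V)) (hF : F ⊆ ed G) (hP : Piece Q Lo K φ F) :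
    ∃ c ∈ (univ ×ˢ univ : Finset (V × V)) ×ˢ (Wk G Q (2 * (K.card - 1)) ×ˢ
      Wk G Lo (2 * (K.card - 1))), Pc Q K.card c F := by
  classical
  obtain ⟨hna, hKQ, hconn, hK, hz⟩ := hP
  obtain ⟨w, ⟨hw1, hw2⟩, hcov⟩ := hW V (gr F) K hconn
  let c : CT V (2 * (K.card - 1)) := ((φ.2.1, φ.2.2), (fun i => w i, fun i => φ.1 (w i)))
  have hwK : ∀ i : Fin (2 * (K.card - 1) + 1), w i ∈ K := fun i => hw1 i (by omega)
  have hkc : kc c = K := by
    ext x
    unfold kc
    rw [mem_image]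
    constructor
    · rintro ⟨i, _, rfl⟩
      exact hwK i
    · intro hx
      obtain ⟨i, hi, rfl⟩ := hcov x hx
      exact ⟨⟨i, by omega⟩, mem_univ _, rfl⟩
  have hpsi : ∀ x ∈ K, psi c x = φ.1 x := by
    intro x hx
    have hex : ∃ i, c.2.1 i = x := by
      rw [← hkc] at hx
      obtain ⟨i, _, hi⟩ := mem_image.1 hx
      exact ⟨i, hi⟩
    unfold psi
    rw [dif_pos hex]
    show φ.1 (w hex.choose) = φ.1 x
    congr 1
    exact hex.choose_spec
  refine ⟨c, ?_, ⟨?_, ?_, ?_, ?_, ?_⟩, ?_⟩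
  · rw [mem_product, mem_product, mem_product]
    refine ⟨⟨mem_univ _, mem_univ _⟩, ?_, ?_⟩
    · unfold Wk
      rw [mem_filter]
      refine ⟨mem_univ _, fun i => hKQ (hwK i), fun i => ?_⟩
      have h := hw2 i (by omega)
      rw [gr_adj] at h
      exact (mem_ed G _ _).1 (hF h.1)
    · unfold Wk
      rw [mem_filter]
      refine ⟨mem_univ _, fun i => (hK _ (hwK i)).2.2.2, fun i => ?_⟩
      have h := hw2 i (by omega)
      have a1 := hK _ (hw1 i (by omega))
      have a2 := hK _ (hw1 (i + 1) (by omega))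
      have h' := (hna (w i) (w (i + 1)) a1.1 a1.2.1 a2.1 a2.2.1).2 h
      rw [gr_adj] at h'
      exact (mem_ed G _ _).1 (hF h'.1)
  · rw [hkc]
  · rw [hkc]
    exact hKQ
  · rw [hkc]
    intro x hx hb
    unfold bc at hb
    rw [mem_insert, mem_singleton] at hb
    rcases hb with hb | hb
    · exact (hK x hx).1 hb
    · exact (hK x hx).2.1 hb
  · rw [hkc]
    intro x hx y hy hxy
    rw [mem_coe] at hx hy
    rw [hpsi x hx, hpsi y hy] at hxy
    exact φ.1.injective hxy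
  · rw [hkc]
    intro x hx
    rw [hpsi x hx]
    exact (hK x hx).2.2.1
  · rw [hkc]
    intro x hx z hzQ hzB hxz
    have hz1 : z ≠ φ.2.1 := by
      rintro rfl
      exact hzB (mem_insert_self _ _)
    have hz2 : z ≠ φ.2.2 := by
      rintro rfl
      exact hzB (mem_insert_of_mem (mem_singleton_self _))
    have hadj : (gr F).Adj x z := (gr_adj_of hF x z).2 hxz
    have e : psi c z = φ.1 z := by
      by_cases hzK : z ∈ K
      · exact hpsi z hzK
      · rw [psi_off c z (by rw [hkc]; exact hzK), hz x hx z hzQ hzK hz1 hz2 hadj]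
    rw [hpsi x hx, e]
    have := (hna x z (hK x hx).1 (hK x hx).2.1 hz1 hz2).2 hadj
    rw [gr_adj] at this
    exact this.1

end

theorem main (hC : CERT) (hW : WALK) (hN : WCNT) : BIG := by
  intro V _ _ G Q Lo d g D1 D2 K0 θ hV hd hD1 hD2 h1 h2 hg hK0 hθ hθ2 hfin
  classical
  have hn0 : (0 : ℝ) < (Fintype.card V : ℝ) := by
    have : 0 < Fintype.card V := by omega
    exact_mod_cast this
  have hθ0 : 0 ≤ θ := le_trans (by positivity) hθ
  -- the union bound
  have step1 : cnt (ed G) (fun F => ∃ (φ : NAut V) (K : Finset V), K0 ≤ K.card ∧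
      Piece Q Lo K φ F) ≤
      ∑ k ∈ Ico K0 (Fintype.card V + 1), ∑ c ∈ (univ ×ˢ univ : Finset (V × V)) ×ˢ
        (Wk G Q (2 * (k - 1)) ×ˢ Wk G Lo (2 * (k - 1))), cnt (ed G) (Pc Q k c) := by
    refine le_trans (cnt_mono (Q := fun F => ∃ k ∈ Ico K0 (Fintype.card V + 1),
      ∃ c ∈ (univ ×ˢ univ : Finset (V × V)) ×ˢ
        (Wk G Q (2 * (k - 1)) ×ˢ Wk G Lo (2 * (k - 1))), Pc Q k c F) ?_) ?_
    · rintro F hF ⟨φ, K, hK, hP⟩
      refine ⟨K.card, ?_, exists_cert hW G Q Lo K φ F hF hP⟩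
      rw [mem_Ico]
      exact ⟨hK, Nat.lt_succ_of_le (card_le_univ K)⟩
    · refine (cnt_ex _ _ _).trans (sum_le_sum fun k _ => ?_)
      exact cnt_ex _ _ _
  have step2 : ∀ k ∈ Ico K0 (Fintype.card V + 1),
      ∑ c ∈ (univ ×ˢ univ : Finset (V × V)) ×ˢ
        (Wk G Q (2 * (k - 1)) ×ˢ Wk G Lo (2 * (k - 1))), cnt (ed G) (Pc Q k c) ≤
      (Fintype.card V : ℝ) ^ 4 * θ ^ k * 2 ^ (ed G).card := by
    intro k hk
    rw [mem_Ico] at hk
    have hk1 : 1 ≤ k := hK0.trans hk.1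
    refine (sum_le_card_nsmul _ _ _ fun c _ => cert_le hC G Q d g k _ hd hg c).trans ?_
    rw [nsmul_eq_mul, card_product, card_product, card_product]
    have hw1 : (Wk G Q (2 * (k - 1))).card ≤ Fintype.card V * D1 ^ (2 * (k - 1)) :=
      hN V G Q (2 * (k - 1)) D1 hD1
    have hw2 : (Wk G Lo (2 * (k - 1))).card ≤ Fintype.card V * D2 ^ (2 * (k - 1)) :=
      hN V G Lo (2 * (k - 1)) D2 hD2
    have hcard : ((((univ : Finset V).card * (univ : Finset V).card) *
        ((Wk G Q (2 * (k - 1))).card * (Wk G Lo (2 * (k - 1))).card) : ℕ) : ℝ) ≤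
        (Fintype.card V : ℝ) ^ 4 * (((D1 : ℝ) * D2) ^ 2) ^ k := by
      have h3 : (((univ : Finset V).card * (univ : Finset V).card) *
        ((Wk G Q (2 * (k - 1))).card * (Wk G Lo (2 * (k - 1))).card) : ℕ) ≤
          (Fintype.card V * Fintype.card V) *
            ((Fintype.card V * D1 ^ (2 * (k - 1))) * (Fintype.card V * D2 ^ (2 * (k - 1)))) := by
        rw [card_univ]
        exact Nat.mul_le_mul_left _ (Nat.mul_le_mul hw1 hw2)
      have h4 : (Fintype.card V * Fintype.card V) *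
            ((Fintype.card V * D1 ^ (2 * (k - 1))) * (Fintype.card V * D2 ^ (2 * (k - 1)))) ≤
          Fintype.card V ^ 4 * ((D1 * D2) ^ 2) ^ k := by
        have h5 : (D1 * D2) ^ (2 * (k - 1)) ≤ (D1 * D2) ^ (2 * k) :=
          Nat.pow_le_pow_right (Nat.mul_pos h1 h2) (by omega)
        calc (Fintype.card V * Fintype.card V) *
            ((Fintype.card V * D1 ^ (2 * (k - 1))) * (Fintype.card V * D2 ^ (2 * (k - 1))))
            = Fintype.card V ^ 4 * (D1 * D2) ^ (2 * (k - 1)) := by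
              rw [mul_pow]
              ring
          _ ≤ Fintype.card V ^ 4 * (D1 * D2) ^ (2 * k) := Nat.mul_le_mul_left _ h5
          _ = Fintype.card V ^ 4 * ((D1 * D2) ^ 2) ^ k := by rw [pow_mul]
      have h6 := h3.trans h4
      have h7 : ((((univ : Finset V).card * (univ : Finset V).card) *
        ((Wk G Q (2 * (k - 1))).card * (Wk G Lo (2 * (k - 1))).card) : ℕ) : ℝ) ≤
          ((Fintype.card V ^ 4 * ((D1 * D2) ^ 2) ^ k : ℕ) : ℝ) := Nat.cast_le.2 h6
      refine h7.trans (le_of_eq ?_)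
      push_cast
      ring
    calc ((((univ : Finset V).card * (univ : Finset V).card) *
        ((Wk G Q (2 * (k - 1))).card * (Wk G Lo (2 * (k - 1))).card) : ℕ) : ℝ) *
          ((3 / 4) ^ (g * k) * 2 ^ (ed G).card)
        ≤ ((Fintype.card V : ℝ) ^ 4 * (((D1 : ℝ) * D2) ^ 2) ^ k) *
          ((3 / 4) ^ (g * k) * 2 ^ (ed G).card) :=
          mul_le_mul_of_nonneg_right hcard (by positivity)
      _ = (Fintype.card V : ℝ) ^ 4 * (((D1 : ℝ) * D2) ^ 2 * (3 / 4) ^ g) ^ k *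
          2 ^ (ed G).card := by
          rw [pow_mul, mul_pow (((D1 : ℝ) * D2) ^ 2)]
          ring
      _ ≤ (Fintype.card V : ℝ) ^ 4 * θ ^ k * 2 ^ (ed G).card := by
          have : (((D1 : ℝ) * D2) ^ 2 * (3 / 4) ^ g) ^ k ≤ θ ^ k :=
            pow_le_pow_left₀ (by positivity) hθ k
          gcongr
  refine step1.trans ((sum_le_sum step2).trans ?_)
  rw [← sum_mul, ← mul_sum]
  apply mul_le_mul_of_nonneg_right _ (by positivity)
  have hgeo : ∑ k ∈ Ico K0 (Fintype.card V + 1), θ ^ k ≤ 2 * θ ^ K0 := by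
    refine (geom_sum_Ico_le_of_lt_one hθ0 (by linarith)).trans ?_
    rw [div_le_iff₀ (by linarith)]
    have : 0 ≤ θ ^ K0 := pow_nonneg hθ0 _
    nlinarith
  calc (Fintype.card V : ℝ) ^ 4 * ∑ k ∈ Ico K0 (Fintype.card V + 1), θ ^ k
      ≤ (Fintype.card V : ℝ) ^ 4 * (2 * θ ^ K0) := by gcongr
    _ ≤ 1 / (Fintype.card V : ℝ) := by
      rw [le_div_iff₀ hn0]
      calc (Fintype.card V : ℝ) ^ 4 * (2 * θ ^ K0) * (Fintype.card V : ℝ)
          = 2 * (Fintype.card V : ℝ) ^ 5 * θ ^ K0 := by ring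
        _ ≤ 1 := hfin

end Pool.Agent.Y375.RS.BIG
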