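import Pool.Agent.Y395.RS.Stm

set_option autoImplicit false
set_option linter.unusedSectionVars false

/-! The conditional probability of a match (project RS of helper395). -/

namespace Pool.Agent.Y375.RS.MC

open Finset Pool.Agent.Y395.RS

/-- eight consecutive numbers around `j` -/
def be (j : ℕ) : Finset ℕ := (range (j + 5)).filter (fun i => j ≤ i + 3)

theorem mem_be (i j : ℕ) : i ∈ be j ↔ i ≤ j + 4 ∧ j ≤ i + 3 := by
  unfold be
  rw [mem_filter, mem_range]
  omega

theorem be_unique {q i j j' : ℕ} (h : j % 8 = q) (h' : j' % 8 = q) (hi : i ∈ be j)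
    (hi' : i ∈ be j') : j = j' := by
  rw [mem_be] at hi hi'
  omega

variable {V : Type} [Fintype V] [DecidableEq V]

/-- the possible edges -/
def TT (v : V) (N : Finset V) : Finset (Sym2 V) := N.image (fun z => s(v, z))

theorem e_inj (v : V) : Function.Injective (fun z : V => s(v, z)) := by
  intro a b h
  simp only [Sym2.eq_iff] at h
  rcases h with h | h
  · exact h.2
  · rw [← h.1, h.2]

theorem mem_TT {v : V} {N : Finset V} {a b : V} (h : s(a, b) ∈ TT v N) :
    (a = v ∧ b ∈ N) ∨ (b = v ∧ a ∈ N) := by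
  unfold TT at h
  rw [mem_image] at h
  obtain ⟨w, hw, he⟩ := h
  rw [Sym2.eq_iff] at he
  rcases he with ⟨rfl, rfl⟩ | ⟨rfl, rfl⟩
  · exact Or.inl ⟨rfl, hw⟩
  · exact Or.inr ⟨rfl, hw⟩

theorem dg_congr {F F' : Finset (Sym2 V)} {W : Finset V} {z : V}
    (h : ∀ y, y ∉ W → z ≠ y → (s(z, y) ∈ F ↔ s(z, y) ∈ F')) : dg F W z = dg F' W z := by
  unfold dg
  congr 1
  ext y
  rw [mem_nb, mem_nb, gr_adj, gr_adj, mem_sdiff]
  constructor
  · rintro ⟨h1, h2, h3⟩
    exact ⟨h1, (h y h1.2 h3).1 h2, h3⟩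
  · rintro ⟨h1, h2, h3⟩
    exact ⟨h1, (h y h1.2 h3).2 h2, h3⟩

theorem dg_le (F : Finset (Sym2 V)) (W W' : Finset V) (z : V) :
    dg F W z ≤ dg F W' z + (W' \ W).card := by
  unfold dg
  refine le_trans (card_le_card ?_) (card_union_le _ _)
  intro y hy
  rw [mem_nb, mem_sdiff] at hy
  rw [mem_union, mem_nb, mem_sdiff, mem_sdiff]
  by_cases hW : y ∈ W'
  · exact Or.inr ⟨hW, hy.1.2⟩
  · exact Or.inl ⟨⟨mem_univ _, hW⟩, hy.2⟩

/-- the setting -/
structure Ctx (v v' : V) (U U' N : Finset V) (F0 : Finset (Sym2 V)) : Prop where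
  hvv : v ≠ v'
  hU : U.card ≤ 2
  hU' : U'.card ≤ 2
  hvU : v ∉ U
  hvU' : v' ∉ U'
  hvN : v ∉ N
  hvN' : v' ∉ N
  hNU : Disjoint N U
  hNU' : Disjoint N U'
  hF0 : ∀ z ∈ N, s(v, z) ∉ F0

theorem dg_const {v : V} {N W : Finset V} {F0 A : Finset (Sym2 V)} (hA : A ⊆ TT v N)
    {z : V} (hz : z ∉ N) (hzv : z ≠ v) : dg (F0 ∪ A) W z = dg F0 W z := by
  apply dg_congr
  intro y _ _
  rw [mem_union]
  constructor
  · rintro (h | h)
    · exact h
    · rcases mem_TT (hA h) with h | h
      · exact absurd h.1 hzv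
      · exact absurd h.2 hz
  · exact Or.inl

theorem dg_N {v : V} {N W : Finset V} {F0 A : Finset (Sym2 V)} (hA : A ⊆ TT v N) (hvN : v ∉ N)
    {z : V} (hz : z ∈ N) (hF0 : s(v, z) ∉ F0) :
    dg (F0 ∪ A) W z = dg F0 (insert v W) z + (if v ∉ W ∧ s(v, z) ∈ A then 1 else 0) := by
  have hzv : z ≠ v := fun h => hvN (h ▸ hz)
  have key : ∀ y, y ≠ v → (s(z, y) ∈ F0 ∪ A ↔ s(z, y) ∈ F0) := by
    intro y hy
    rw [mem_union]
    constructor
    · rintro (h | h)
      · exact h
      · rcases mem_TT (hA h) with h | h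
        · exact absurd h.1 hzv
        · exact absurd h.1 hy
    · exact Or.inl
  split_ifs with hc
  · unfold dg
    rw [← card_insert_of_notMem (a := v) (s := nb (gr F0) (univ \ insert v W) z)]
    · congr 1
      ext y
      rw [mem_insert, mem_nb, mem_nb, gr_adj, gr_adj, mem_sdiff, mem_sdiff, mem_insert]
      constructor
      · rintro ⟨h1, h2, h3⟩
        by_cases hy : y = v
        · exact Or.inl hy
        · refine Or.inr ⟨⟨mem_univ _, ?_⟩, (key y hy).1 h2, h3⟩
          rintro (h | h)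
          · exact hy h
          · exact h1.2 h
      · rintro (h | ⟨h1, h2, h3⟩)
        · subst h
          refine ⟨⟨mem_univ _, hc.1⟩, ?_, hzv⟩
          rw [mem_union, Sym2.eq_swap]
          exact Or.inr hc.2
        · have hy : y ≠ v := fun h => h1.2 (Or.inl h)
          exact ⟨⟨mem_univ _, fun h => h1.2 (Or.inr h)⟩, (key y hy).2 h2, h3⟩
    · intro h
      rw [mem_nb, mem_sdiff, mem_insert] at h
      exact h.1.2 (Or.inl rfl)
  · rw [add_zero]
    unfold dg
    congr 1
    ext y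
    rw [mem_nb, mem_nb, gr_adj, gr_adj, mem_sdiff, mem_sdiff, mem_insert]
    constructor
    · rintro ⟨h1, h2, h3⟩
      have hy : y ≠ v := by
        rintro rfl
        apply hc
        refine ⟨h1.2, ?_⟩
        rw [mem_union, Sym2.eq_swap] at h2
        rcases h2 with h2 | h2
        · exact absurd h2 hF0
        · exact h2
      refine ⟨⟨mem_univ _, ?_⟩, (key y hy).1 h2, h3⟩
      rintro (h | h)
      · exact hy h
      · exact h1.2 h
    · rintro ⟨h1, h2, h3⟩
      have hy : y ≠ v := fun h => h1.2 (Or.inl h)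
      exact ⟨⟨mem_univ _, fun h => h1.2 (Or.inr h)⟩, (key y hy).2 h2, h3⟩

theorem dg_be {v v' : V} {U U' N : Finset V} {F0 A : Finset (Sym2 V)}
    (c : Ctx v v' U U' N F0) (hA : A ⊆ TT v N) {z : V} (hz : z ∈ N) :
    dg (F0 ∪ A) U' z ∈ be (dg F0 (insert v U) z) := by
  rw [dg_N hA c.hvN hz (c.hF0 z hz), mem_be]
  have h1 : dg F0 (insert v U') z ≤ dg F0 (insert v U) z + 2 := by
    refine (dg_le F0 (insert v U') (insert v U) z).trans ?_
    have : ((insert v U) \ (insert v U')).card ≤ 2 := by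
      refine (card_le_card ?_).trans c.hU
      intro y hy
      rw [mem_sdiff, mem_insert, mem_insert] at hy
      rcases hy.1 with h | h
      · exact absurd (Or.inl h) hy.2
      · exact h
    omega
  have h2 : dg F0 (insert v U) z ≤ dg F0 (insert v U') z + 2 := by
    refine (dg_le F0 (insert v U) (insert v U') z).trans ?_
    have : ((insert v U') \ (insert v U)).card ≤ 2 := by
      refine (card_le_card ?_).trans c.hU'
      intro y hy
      rw [mem_sdiff, mem_insert, mem_insert] at hy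
      rcases hy.1 with h | h
      · exact absurd (Or.inl h) hy.2
      · exact h
    omega
  split_ifs <;> omega

open Classical in
/-- the neighbours of `v` outside `U` with degree in `be j` -/
noncomputable def LS (F : Finset (Sym2 V)) (U : Finset V) (v : V) (j : ℕ) : Finset V :=
  univ.filter (fun z => z ∉ U ∧ (gr F).Adj v z ∧ dg F U z ∈ be j)

theorem LS_card (F : Finset (Sym2 V)) (U : Finset V) (v : V) (j : ℕ) :
    (LS F U v j).card = ∑ i ∈ be j, cj F U v i := by
  classical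
  rw [card_eq_sum_card_fiberwise (f := fun z => dg F U z) (t := be j)]
  · apply sum_congr rfl
    intro i hi
    unfold cj
    congr 1
    ext z
    unfold LS
    rw [mem_filter, mem_filter, mem_filter]
    constructor
    · rintro ⟨⟨_, h1, h2, _⟩, h4⟩
      exact ⟨mem_univ _, h1, h2, h4⟩
    · rintro ⟨_, h1, h2, h4⟩
      exact ⟨⟨mem_univ _, h1, h2, by rw [h4]; exact hi⟩, h4⟩
  · intro z hz
    unfold LS at hz
    rw [mem_coe, mem_filter] at hz
    exact hz.2.2.2

theorem match_LS {v v' : V} {U U' : Finset V} {F : Finset (Sym2 V)} (h : Match v v' U U' F)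
    (j : ℕ) : (LS F U v j).card = (LS F U' v' j).card := by
  rw [LS_card, LS_card]
  exact sum_congr rfl fun i _ => h i

/-- the heads with `κ = j` -/
noncomputable def HS (v : V) (U N : Finset V) (F0 A : Finset (Sym2 V)) (j : ℕ) : Finset V :=
  N.filter (fun z => dg F0 (insert v U) z = j ∧ s(v, z) ∈ A)

/-- the blocks -/
noncomputable def BB (v : V) (U N : Finset V) (F0 : Finset (Sym2 V)) (j : ℕ) : Finset (Sym2 V) :=
  (N.filter (fun z => dg F0 (insert v U) z = j)).image (fun z => s(v, z))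

theorem BB_card (v : V) (U N : Finset V) (F0 : Finset (Sym2 V)) (j : ℕ) :
    (BB v U N F0 j).card = (N.filter (fun z => dg F0 (insert v U) z = j)).card := by
  unfold BB
  exact card_image_of_injective _ (e_inj v)

theorem HS_card (v : V) (U N : Finset V) (F0 A : Finset (Sym2 V)) (j : ℕ) :
    (HS v U N F0 A j).card = (A ∩ BB v U N F0 j).card := by
  rw [← card_image_of_injective _ (e_inj v)]
  congr 1
  ext x
  unfold HS BB
  rw [mem_image, mem_inter, mem_image]
  constructor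
  · rintro ⟨z, hz, rfl⟩
    rw [mem_filter] at hz
    exact ⟨hz.2.2, z, mem_filter.2 ⟨hz.1, hz.2.1⟩, rfl⟩
  · rintro ⟨h1, z, hz, rfl⟩
    rw [mem_filter] at hz
    exact ⟨z, mem_filter.2 ⟨hz.1, hz.2, h1⟩, rfl⟩

/-- membership on the left side -/
theorem mem_LS_left {v v' : V} {U U' N : Finset V} {F0 A A' : Finset (Sym2 V)} {q j : ℕ}
    (c : Ctx v v' U U' N F0) (hA : A ⊆ TT v N) (hA' : A' ⊆ TT v N) (hj : j % 8 = q)
    (hAA : ∀ z ∈ N, dg F0 (insert v U) z % 8 ≠ q → (s(v, z) ∈ A ↔ s(v, z) ∈ A'))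
    {z : V} (hz : ¬ (z ∈ N ∧ dg F0 (insert v U) z = j)) (h : z ∈ LS (F0 ∪ A) U v j) :
    z ∈ LS (F0 ∪ A') U v j := by
  classical
  unfold LS at h ⊢
  rw [mem_filter, gr_adj, mem_union] at h ⊢
  obtain ⟨_, h1, ⟨h2, h3⟩, h4⟩ := h
  by_cases hN : z ∈ N
  · have hk : dg F0 (insert v U) z ≠ j := fun e => hz ⟨hN, e⟩
    have hA2 : s(v, z) ∈ A := by
      rcases h2 with h2 | h2
      · exact absurd h2 (c.hF0 z hN)
      · exact h2
    rw [dg_N hA c.hvN hN (c.hF0 z hN), if_pos ⟨c.hvU, hA2⟩, mem_be] at h4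
    have hq : dg F0 (insert v U) z % 8 ≠ q := by
      intro e
      omega
    have hA3 := (hAA z hN hq).1 hA2
    refine ⟨mem_univ _, h1, ⟨Or.inr hA3, h3⟩, ?_⟩
    rw [dg_N hA' c.hvN hN (c.hF0 z hN), if_pos ⟨c.hvU, hA3⟩, mem_be]
    exact h4
  · have hzA : s(v, z) ∉ A := by
      intro hh
      rcases mem_TT (hA hh) with h | h
      · exact hN h.2
      · exact h3 h.1.symm
    have h2' : s(v, z) ∈ F0 := by
      rcases h2 with h2 | h2
      · exact h2
      · exact absurd h2 hzA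
    refine ⟨mem_univ _, h1, ⟨Or.inl h2', h3⟩, ?_⟩
    rw [dg_const hA' hN h3.symm]
    rwa [dg_const hA hN h3.symm] at h4

/-- membership on the right side -/
theorem mem_LS_right {v v' : V} {U U' N : Finset V} {F0 A A' : Finset (Sym2 V)} {q j : ℕ}
    (c : Ctx v v' U U' N F0) (hA : A ⊆ TT v N) (hA' : A' ⊆ TT v N) (hj : j % 8 = q)
    (hAA : ∀ z ∈ N, dg F0 (insert v U) z % 8 ≠ q → (s(v, z) ∈ A ↔ s(v, z) ∈ A'))
    (hv : dg (F0 ∪ A) U' v ∉ be j)
    {z : V} (h : z ∈ LS (F0 ∪ A) U' v' j) :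
    z ∈ LS (F0 ∪ A') U' v' j := by
  classical
  unfold LS at h ⊢
  rw [mem_filter, gr_adj, mem_union] at h ⊢
  obtain ⟨_, h1, ⟨h2, h3⟩, h4⟩ := h
  have h2' : s(v', z) ∈ F0 := by
    rcases h2 with h2 | h2
    · exact h2
    · rcases mem_TT (hA h2) with h | h
      · exact absurd h.1.symm c.hvv
      · exact absurd h.2 c.hvN'
  refine ⟨mem_univ _, h1, ⟨Or.inl h2', h3⟩, ?_⟩
  by_cases hN : z ∈ N
  · by_cases hq : dg F0 (insert v U) z % 8 = q
    · have e := be_unique hq hj (dg_be c hA hN) h4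
      rw [← e]
      exact dg_be c hA' hN
    · rw [dg_N hA' c.hvN hN (c.hF0 z hN)]
      rw [dg_N hA c.hvN hN (c.hF0 z hN)] at h4
      have e := hAA z hN hq
      by_cases hc : s(v, z) ∈ A
      · have hc' := e.1 hc
        simp only [hc, hc'] at h4 ⊢
        exact h4
      · have hc' : s(v, z) ∉ A' := fun h => hc (e.2 h)
        simp only [hc, hc'] at h4 ⊢
        exact h4
  · by_cases hzv : z = v
    · subst hzv
      exact absurd h4 hv
    · rw [dg_const hA' hN hzv]
      rwa [dg_const hA hN hzv] at h4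

theorem LS_split {v v' : V} {U U' N : Finset V} {F0 A : Finset (Sym2 V)} {j : ℕ}
    (c : Ctx v v' U U' N F0) (hA : A ⊆ TT v N) :
    (LS (F0 ∪ A) U v j).card = (HS v U N F0 A j).card +
      ((LS (F0 ∪ A) U v j).filter (fun z => ¬ (z ∈ N ∧ dg F0 (insert v U) z = j))).card := by
  classical
  have h := card_filter_add_card_filter_not (s := LS (F0 ∪ A) U v j)
    (fun z => z ∈ N ∧ dg F0 (insert v U) z = j)
  rw [← h]
  congr 2
  ext z
  unfold HS
  rw [mem_filter, mem_filter]
  unfold LS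
  rw [mem_filter, gr_adj, mem_union]
  constructor
  · rintro ⟨⟨_, h1, ⟨h2, h3⟩, h4⟩, h5, h6⟩
    refine ⟨h5, h6, ?_⟩
    rcases h2 with h2 | h2
    · exact absurd h2 (c.hF0 z h5)
    · exact h2
  · rintro ⟨h5, h6, h7⟩
    refine ⟨⟨mem_univ _, disjoint_left.1 c.hNU h5, ⟨Or.inr h7, fun e => c.hvN (e ▸ h5)⟩, ?_⟩,
      h5, h6⟩
    rw [dg_N hA c.hvN h5 (c.hF0 z h5), if_pos ⟨c.hvU, h7⟩, mem_be, h6]
    omega

/-- the numbers of heads agree -/
theorem HS_eq {v v' : V} {U U' N : Finset V} {F0 A A' : Finset (Sym2 V)} {q j : ℕ}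
    (c : Ctx v v' U U' N F0) (hA : A ⊆ TT v N) (hA' : A' ⊆ TT v N) (hj : j % 8 = q)
    (hAA : ∀ z ∈ N, dg F0 (insert v U) z % 8 ≠ q → (s(v, z) ∈ A ↔ s(v, z) ∈ A'))
    (hv : dg (F0 ∪ A) U' v ∉ be j) (hv' : dg (F0 ∪ A') U' v ∉ be j)
    (hM : Match v v' U U' (F0 ∪ A)) (hM' : Match v v' U U' (F0 ∪ A')) :
    (HS v U N F0 A j).card = (HS v U N F0 A' j).card := by
  classical
  have h1 := match_LS hM j
  have h2 := match_LS hM' j
  have hAA' : ∀ z ∈ N, dg F0 (insert v U) z % 8 ≠ q → (s(v, z) ∈ A' ↔ s(v, z) ∈ A) :=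
    fun z hz h => (hAA z hz h).symm
  have h3 : LS (F0 ∪ A) U' v' j = LS (F0 ∪ A') U' v' j := by
    ext z
    exact ⟨mem_LS_right c hA hA' hj hAA hv, mem_LS_right c hA' hA hj hAA' hv'⟩
  rw [LS_split c hA] at h1
  rw [LS_split c hA'] at h2
  have h4 : (LS (F0 ∪ A) U v j).filter (fun z => ¬ (z ∈ N ∧ dg F0 (insert v U) z = j)) =
      (LS (F0 ∪ A') U v j).filter (fun z => ¬ (z ∈ N ∧ dg F0 (insert v U) z = j)) := by
    ext z
    rw [mem_filter, mem_filter]
    exact ⟨fun h => ⟨mem_LS_left c hA hA' hj hAA h.2 h.1, h.2⟩,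
      fun h => ⟨mem_LS_left c hA' hA hj hAA' h.2 h.1, h.2⟩⟩
  rw [h4] at h1
  rw [h3] at h1
  omega

theorem cnt_card (hB : BINOM) {α : Type} [DecidableEq α] (B : Finset α) (c : ℕ) :
    cnt B (fun X => X.card = c) ≤ (1 / Real.sqrt ((B.card : ℝ) + 1)) * 2 ^ B.card := by
  classical
  rw [cnt_eq]
  have h : B.powerset.filter (fun X => X.card = c) = B.powersetCard c := by
    ext X
    rw [mem_filter, mem_powerset, mem_powersetCard]
  rw [h, card_powersetCard]
  refine (hB B.card c).trans (le_of_eq ?_)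
  ring

theorem main (hB : BINOM) : MC := by
  classical
  intro V _ _ v v' U U' N F0 q ρ hvv hU hU' hvU hvU' hvN hvN' hNU hNU' hF0 hρ
  have c : Ctx v v' U U' N F0 := ⟨hvv, hU, hU', hvU, hvU', hvN, hvN', hNU, hNU', hF0⟩
  set n := Fintype.card V with hn
  set κ : V → ℕ := fun z => dg F0 (insert v U) z with hκ
  have hρ0 : 0 ≤ ρ := le_trans (prod_nonneg fun j _ => by positivity) (hρ 0)
  set T0 : Finset (Sym2 V) := (N.filter (fun z => κ z % 8 = q)).image (fun z => s(v, z)) with hT0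
  have hT0T : T0 ⊆ TT v N := image_subset_image (filter_subset _ _)
  show cnt (TT v N) (fun A => Match v v' U U' (F0 ∪ A)) ≤ ((n : ℝ) + 2) * ρ * 2 ^ (TT v N).card
  apply cnt_cond (TT v N) T0 hT0T
  intro A1 hA1
  have hA1T : A1 ⊆ TT v N := hA1.trans sdiff_subset
  -- the union bound
  let P : ℕ → Finset (Sym2 V) → Prop := fun t A2 => Match v v' U U' (F0 ∪ (A1 ∪ A2)) ∧
    ∀ j ≤ n, j % 8 = q → j ≠ t → dg (F0 ∪ (A1 ∪ A2)) U' v ∉ be j
  have step1 : cnt T0 (fun A => Match v v' U U' (F0 ∪ (A1 ∪ A))) ≤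
      ∑ t ∈ range (n + 2), cnt T0 (P t) := by
    refine le_trans (cnt_mono (Q := fun A => ∃ t ∈ range (n + 2), P t A) fun A2 _ hM => ?_)
      (cnt_ex _ _ _)
    by_cases hex : ∃ j ≤ n, j % 8 = q ∧ dg (F0 ∪ (A1 ∪ A2)) U' v ∈ be j
    · obtain ⟨j0, hj0, hj1, hj2⟩ := hex
      refine ⟨j0, mem_range.2 (by omega), hM, ?_⟩
      intro j _ hjq hjt hmem
      exact hjt (be_unique hjq hj1 hmem hj2)
    · refine ⟨n + 1, mem_range.2 (by omega), hM, ?_⟩
      intro j hj hjq _ hmem
      exact hex ⟨j, hj, hjq, hmem⟩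
  have step2 : ∀ t ∈ range (n + 2), cnt T0 (P t) ≤ ρ * 2 ^ T0.card := by
    intro t _
    by_cases hne : ∃ A2 ⊆ T0, P t A2
    · obtain ⟨As, hAs, hPs⟩ := hne
      set J := (range (n + 1)).filter (fun j => j % 8 = q ∧ j ≠ t) with hJ
      have hsub : ∀ A2 ⊆ T0, A1 ∪ A2 ⊆ TT v N := fun A2 h =>
        union_subset hA1T (h.trans hT0T)
      have hBT : ∀ j ∈ J, BB v U N F0 j ⊆ T0 := by
        intro j hj
        rw [hJ, mem_filter] at hj
        unfold BB
        rw [hT0]
        apply image_subset_image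
        intro z hz
        rw [mem_filter] at hz ⊢
        refine ⟨hz.1, ?_⟩
        show κ z % 8 = q
        have : κ z = j := hz.2
        rw [this]
        exact hj.2.1
      have hint : ∀ j ∈ J, ∀ A2 ⊆ T0, (A1 ∪ A2) ∩ BB v U N F0 j = A2 ∩ BB v U N F0 j := by
        intro j hj A2 hA2
        ext x
        rw [mem_inter, mem_union, mem_inter]
        constructor
        · rintro ⟨h1 | h1, h2⟩
          · exact absurd (hBT j hj h2) (mem_sdiff.1 (hA1 h1)).2
          · exact ⟨h1, h2⟩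
        · rintro ⟨h1, h2⟩
          exact ⟨Or.inr h1, h2⟩
      have hAA : ∀ A2 ⊆ T0, ∀ z ∈ N, dg F0 (insert v U) z % 8 ≠ q →
          (s(v, z) ∈ A1 ∪ A2 ↔ s(v, z) ∈ A1) := by
        intro A2 hA2 z hz hzq
        rw [mem_union]
        constructor
        · rintro (h | h)
          · exact h
          · exfalso
            have h' := hA2 h
            rw [hT0, mem_image] at h'
            obtain ⟨w, hw, he⟩ := h'
            have := e_inj v he
            subst this
            exact hzq (mem_filter.1 hw).2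
        · exact Or.inl
      have hmono : cnt T0 (P t) ≤ cnt T0 (fun A2 => ∀ j ∈ J,
          (A2 ∩ BB v U N F0 j).card = (As ∩ BB v U N F0 j).card) := by
        apply cnt_mono
        intro A2 hA2 hP j hj
        have hj' := hj
        rw [hJ, mem_filter, mem_range] at hj'
        have h := HS_eq (A := A1 ∪ A2) (A' := A1 ∪ As) (j := j) c (hsub A2 hA2) (hsub As hAs)
          hj'.2.1 (fun z hz hzq => (hAA A2 hA2 z hz hzq).trans (hAA As hAs z hz hzq).symm)
          (hP.2 j (by omega) hj'.2.1 hj'.2.2) (hPs.2 j (by omega) hj'.2.1 hj'.2.2) hP.1 hPs.1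
        rw [HS_card, HS_card, hint j hj A2 hA2, hint j hj As hAs] at h
        exact h
      have hblocks := cnt_blocks T0 J (fun j => BB v U N F0 j)
        (fun j X => X.card = (As ∩ BB v U N F0 j).card)
        (fun j => 1 / Real.sqrt (((N.filter (fun z => dg F0 (insert v U) z = j)).card : ℝ) + 1))
        hBT
        (by
          intro i _ j _ hij
          rw [disjoint_left]
          intro x hx hx'
          unfold BB at hx hx'
          rw [mem_image] at hx hx'
          obtain ⟨z, hz, rfl⟩ := hx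
          obtain ⟨w, hw, he⟩ := hx'
          have := e_inj v he
          subst this
          exact hij ((mem_filter.1 hz).2.symm.trans (mem_filter.1 hw).2))
        (by
          intro j _
          have := cnt_card hB (BB v U N F0 j) (As ∩ BB v U N F0 j).card
          rw [BB_card] at this
          rw [BB_card]
          exact this)
      refine hmono.trans (hblocks.trans ?_)
      exact mul_le_mul_of_nonneg_right (hρ t) (by positivity)
    · refine le_trans (cnt_mono (Q := fun _ => False) fun A2 hA2 hP => hne ⟨A2, hA2, hP⟩) ?_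
      rw [cnt_false]
      positivity
  refine step1.trans ((sum_le_sum step2).trans (le_of_eq ?_))
  rw [sum_const, card_range, nsmul_eq_mul]
  push_cast
  ring

end Pool.Agent.Y375.RS.MC
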